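import Mathlib

set_option autoImplicit false
set_option linter.unusedSectionVars false

/-!
# Approximation of a matrix by matrices of small rank
-/

namespace Pool.Agent.HM13.LR

open Finset

section

variable {X Y : Type} [Fintype X] [Fintype Y]

/-- an orthonormal basis of the column space -/
theorem exists_orthonormal (L : Matrix X Y ℝ) :
    ∃ (q : Fin L.rank → X → ℝ) (R : Fin L.rank → Y → ℝ),
      (∀ i j, ∑ x, q i x * q j x = if i = j then 1 else 0) ∧
      ∀ x y, L x y = ∑ i, q i x * R i y := by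
  classical
  let e := (WithLp.linearEquiv 2 ℝ (X → ℝ)).symm
  let S : Submodule ℝ (EuclideanSpace ℝ X) := (LinearMap.range L.mulVecLin).map (e : (X → ℝ) →ₗ[ℝ] _)
  have hS : Module.finrank ℝ S = L.rank := by
    unfold Matrix.rank
    exact LinearEquiv.finrank_map_eq e _
  let b : OrthonormalBasis (Fin L.rank) ℝ S := (stdOrthonormalBasis ℝ S).reindex (finCongr hS)
  have hcol : ∀ y, e (L.mulVecLin (Pi.single y 1)) ∈ S := fun y =>
    Submodule.mem_map_of_mem ⟨_, rfl⟩
  refine ⟨fun i x => ((b i : S) : EuclideanSpace ℝ X) x,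
    fun i y => inner ℝ (b i) (⟨e (L.mulVecLin (Pi.single y 1)), hcol y⟩ : S), fun i j => ?_,
    fun x y => ?_⟩
  · have h1 := b.orthonormal
    rw [orthonormal_iff_ite] at h1
    rw [← h1 i j, Submodule.coe_inner, PiLp.inner_apply]
    refine sum_congr rfl fun x _ => ?_
    simp [mul_comm]
  · have h1 := b.sum_repr' (⟨e (L.mulVecLin (Pi.single y 1)), hcol y⟩ : S)
    have h2 := congrArg (fun z : S => (z : EuclideanSpace ℝ X) x) h1
    simp only [Submodule.coe_sum, Submodule.coe_smul, PiLp.smul_apply, smul_eq_mul,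
      WithLp.ofLp_sum, Finset.sum_apply] at h2
    have h3 : (e (L.mulVecLin (Pi.single y 1))) x = L x y := by
      show (L.mulVecLin (Pi.single y 1)) x = L x y
      simp
    rw [h3] at h2
    rw [← h2]
    refine sum_congr rfl fun i _ => ?_
    simp [mul_comm]

theorem approx_ineq (M L : Matrix X Y ℝ) :
    ∑ x, ∑ y, M x y ^ 2 ≤ ∑ x, ∑ y, (M x y - L x y) ^ 2 +
      Real.sqrt (L.rank * ∑ x, ∑ x', (∑ y, M x y * M x' y) ^ 2) := by
  classical
  obtain ⟨q, R, hq, hL⟩ := exists_orthonormal L
  set a : Fin L.rank → Y → ℝ := fun i y => ∑ x, q i x * M x y with ha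
  set S : X → X → ℝ := fun x x' => ∑ y, M x y * M x' y with hS
  set P : X → X → ℝ := fun x x' => ∑ i, q i x * q i x' with hP
  have h1 : ∑ x, ∑ y, M x y * L x y = ∑ i, ∑ y, R i y * a i y := by
    calc ∑ x, ∑ y, M x y * L x y = ∑ x, ∑ y, ∑ i, R i y * (q i x * M x y) := by
          refine sum_congr rfl fun x _ => sum_congr rfl fun y _ => ?_
          rw [hL, mul_sum]
          exact sum_congr rfl fun i _ => by ring
      _ = ∑ y, ∑ x, ∑ i, R i y * (q i x * M x y) := sum_comm
      _ = ∑ y, ∑ i, ∑ x, R i y * (q i x * M x y) := sum_congr rfl fun y _ => sum_comm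
      _ = ∑ i, ∑ y, ∑ x, R i y * (q i x * M x y) := sum_comm
      _ = _ := by
          refine sum_congr rfl fun i _ => sum_congr rfl fun y _ => ?_
          simp only [ha]
          rw [mul_sum]
  have h2 : ∑ x, ∑ y, L x y ^ 2 = ∑ i, ∑ y, R i y ^ 2 := by
    calc ∑ x, ∑ y, L x y ^ 2 = ∑ x, ∑ y, ∑ i, ∑ j, (R i y * R j y) * (q i x * q j x) := by
          refine sum_congr rfl fun x _ => sum_congr rfl fun y _ => ?_
          rw [hL, sq, sum_mul_sum]
          exact sum_congr rfl fun i _ => sum_congr rfl fun j _ => by ring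
      _ = ∑ y, ∑ x, ∑ i, ∑ j, (R i y * R j y) * (q i x * q j x) := sum_comm
      _ = ∑ y, ∑ i, ∑ j, ∑ x, (R i y * R j y) * (q i x * q j x) := by
          refine sum_congr rfl fun y _ => ?_
          rw [sum_comm]
          exact sum_congr rfl fun i _ => sum_comm
      _ = ∑ y, ∑ i, R i y ^ 2 := by
          refine sum_congr rfl fun y _ => sum_congr rfl fun i _ => ?_
          calc ∑ j, ∑ x, (R i y * R j y) * (q i x * q j x) =
              ∑ j, (R i y * R j y) * (if i = j then 1 else 0) := by
                refine sum_congr rfl fun j _ => ?_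
                rw [← mul_sum, hq]
            _ = R i y ^ 2 := by simp [sq]
      _ = _ := sum_comm
  have h3 : 2 * ∑ i, ∑ y, R i y * a i y - ∑ i, ∑ y, R i y ^ 2 ≤ ∑ i, ∑ y, a i y ^ 2 := by
    rw [mul_sum, ← sum_sub_distrib]
    refine sum_le_sum fun i _ => ?_
    rw [mul_sum, ← sum_sub_distrib]
    refine sum_le_sum fun y _ => ?_
    nlinarith [sq_nonneg (R i y - a i y)]
  have h4 : ∑ i, ∑ y, a i y ^ 2 = ∑ x, ∑ x', P x x' * S x x' := by
    calc ∑ i, ∑ y, a i y ^ 2 = ∑ i, ∑ y, ∑ x, ∑ x', (q i x * q i x') * (M x y * M x' y) := by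
          refine sum_congr rfl fun i _ => sum_congr rfl fun y _ => ?_
          simp only [ha]
          rw [sq, sum_mul_sum]
          exact sum_congr rfl fun x _ => sum_congr rfl fun x' _ => by ring
      _ = ∑ i, ∑ x, ∑ x', ∑ y, (q i x * q i x') * (M x y * M x' y) := by
          refine sum_congr rfl fun i _ => ?_
          rw [sum_comm]
          exact sum_congr rfl fun x _ => sum_comm
      _ = ∑ x, ∑ x', ∑ i, ∑ y, (q i x * q i x') * (M x y * M x' y) := by
          rw [sum_comm]
          exact sum_congr rfl fun x _ => sum_comm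
      _ = _ := by
          refine sum_congr rfl fun x _ => sum_congr rfl fun x' _ => ?_
          simp only [hP, hS]
          rw [sum_mul]
          exact sum_congr rfl fun i _ => by rw [mul_sum]
  have h5 : ∑ x, ∑ x', P x x' ^ 2 = L.rank := by
    calc ∑ x, ∑ x', P x x' ^ 2 = ∑ x, ∑ x', ∑ i, ∑ j, (q i x * q j x) * (q i x' * q j x') := by
          refine sum_congr rfl fun x _ => sum_congr rfl fun x' _ => ?_
          simp only [hP]
          rw [sq, sum_mul_sum]
          exact sum_congr rfl fun i _ => sum_congr rfl fun j _ => by ring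
      _ = ∑ x, ∑ i, ∑ j, ∑ x', (q i x * q j x) * (q i x' * q j x') := by
          refine sum_congr rfl fun x _ => ?_
          rw [sum_comm]
          exact sum_congr rfl fun i _ => sum_comm
      _ = ∑ x, ∑ i, ∑ j, (q i x * q j x) * (if i = j then 1 else 0) := by
          refine sum_congr rfl fun x _ => sum_congr rfl fun i _ => sum_congr rfl fun j _ => ?_
          rw [← mul_sum, hq]
      _ = ∑ x, ∑ i, q i x * q i x := by
          refine sum_congr rfl fun x _ => sum_congr rfl fun i _ => ?_
          simp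
      _ = ∑ i, ∑ x, q i x * q i x := sum_comm
      _ = ∑ _i : Fin L.rank, (1 : ℝ) := by
          refine sum_congr rfl fun i _ => ?_
          rw [hq, if_pos rfl]
      _ = _ := by simp
  have h6 : ∑ x, ∑ x', P x x' * S x x' ≤ Real.sqrt (L.rank * ∑ x, ∑ x', S x x' ^ 2) := by
    refine Real.le_sqrt_of_sq_le ?_
    rw [← h5]
    have h7 := sum_mul_sq_le_sq_mul_sq (univ : Finset (X × X)) (fun e => P e.1 e.2)
      (fun e => S e.1 e.2)
    rw [Fintype.sum_prod_type, Fintype.sum_prod_type, Fintype.sum_prod_type] at h7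
    exact h7
  have h8 : ∑ x, ∑ y, (M x y - L x y) ^ 2 = ∑ x, ∑ y, M x y ^ 2 - 2 * ∑ x, ∑ y, M x y * L x y +
      ∑ x, ∑ y, L x y ^ 2 := by
    rw [mul_sum, ← sum_sub_distrib, ← sum_add_distrib]
    refine sum_congr rfl fun x _ => ?_
    rw [mul_sum, ← sum_sub_distrib, ← sum_add_distrib]
    exact sum_congr rfl fun y _ => by ring
  rw [h8, h1, h2]
  linarith

end

end Pool.Agent.HM13.LR
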