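import Pool.Agent.HM13.LR.Spec

set_option autoImplicit false
set_option linter.unusedSectionVars false

/-!
# The final form
-/

namespace Pool.Agent.HM13.LR

open Finset Pool.Agent.HM13.TR Pool.Agent.N721.SR

theorem final (k : ℕ) (hk : 2 ≤ k) : ∃ C : ℝ, 0 < C ∧
      ∀ (V : Type) [Fintype V] [DecidableEq V] (G : SimpleGraph V) [DecidableRel G.Adj],
      (SimpleGraph.cycleGraph (2 * k)).Free G →
      (∀ W L : Matrix V V ℝ, (∀ x y, |W x y| ≤ 1) → (∀ x y, W x y ≠ 0 → G.Adj x y) →
        ∑ x, ∑ y, W x y ^ 2 ≤ ∑ x, ∑ y, (W x y - L x y) ^ 2 +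
          C * ((L.rank : ℝ) / Fintype.card V) ^ (1 / ((k : ℝ) + 2)) *
            (Fintype.card V : ℝ) ^ (1 + 1 / (k : ℝ))) ∧
      ∀ hA : (G.adjMatrix ℝ).IsHermitian,
      (∀ J : Finset V, ∑ i ∈ J, hA.eigenvalues i ^ 2 ≤
        C * ((J.card : ℝ) / Fintype.card V) ^ (1 / ((k : ℝ) + 2)) *
          (Fintype.card V : ℝ) ^ (1 + 1 / (k : ℝ))) ∧
      ∀ c : ℝ, 0 < c → c * (Fintype.card V : ℝ) ^ (1 + 1 / (k : ℝ)) ≤ Nat.card G.edgeSet →
        (c / C) ^ (k + 2) * Fintype.card V ≤
          (Finset.univ.filter fun i =>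
            Real.sqrt c * (Fintype.card V : ℝ) ^ (1 / (2 * (k : ℝ))) ≤ |hA.eigenvalues i|).card ∧
        (c / C) ^ (k + 2) * Real.sqrt c * (Fintype.card V : ℝ) ^ (1 + 1 / (2 * (k : ℝ))) ≤
          ∑ i, |hA.eigenvalues i| := by
  obtain ⟨C₁, hC₁, h1⟩ := low_rank k hk
  obtain ⟨C₂, hC₂, h2⟩ := large_eigenvalues k hk
  have hk0 : (0 : ℝ) < k := by
    have : 0 < k := by omega
    exact_mod_cast this
  refine ⟨C₁ + C₂, by positivity, fun V _ _ G _ hG => ⟨fun W L hW1 hW => ?_, fun hA => ?_⟩⟩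
  · refine (h1 V G hG W L hW1 hW).trans ?_
    have : C₁ * ((L.rank : ℝ) / Fintype.card V) ^ (1 / ((k : ℝ) + 2)) *
            (Fintype.card V : ℝ) ^ (1 + 1 / (k : ℝ)) ≤
        (C₁ + C₂) * ((L.rank : ℝ) / Fintype.card V) ^ (1 / ((k : ℝ) + 2)) *
            (Fintype.card V : ℝ) ^ (1 + 1 / (k : ℝ)) := by
      refine mul_le_mul_of_nonneg_right ?_ (by positivity)
      refine mul_le_mul_of_nonneg_right ?_ (by positivity)
      linarith
    linarith
  · obtain ⟨h3, h4⟩ := h2 V G hG hA
    refine ⟨fun J => (h3 J).trans ?_, fun c hc he => ?_⟩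
    · refine mul_le_mul_of_nonneg_right ?_ (by positivity)
      refine mul_le_mul_of_nonneg_right ?_ (by positivity)
      linarith
    · have h5 := h4 c hc he
      have h6 : (c / (C₁ + C₂)) ^ (k + 2) * Fintype.card V ≤
          (c / C₂) ^ (k + 2) * Fintype.card V := by
        refine mul_le_mul_of_nonneg_right ?_ (by positivity)
        refine pow_le_pow_left₀ (by positivity) ?_ _
        exact div_le_div_of_nonneg_left hc.le hC₂ (by linarith)
      have hsc : 0 < Real.sqrt c := Real.sqrt_pos.2 hc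
      set t : ℝ := Real.sqrt c * (Fintype.card V : ℝ) ^ (1 / (2 * (k : ℝ))) with ht
      have ht0 : 0 ≤ t := by positivity
      have htsq : t ^ 2 = c * (Fintype.card V : ℝ) ^ (1 / (k : ℝ)) := by
        rw [ht, mul_pow, Real.sq_sqrt hc.le, ← Real.rpow_natCast, ← Real.rpow_mul (by positivity)]
        congr 2
        push_cast
        field_simp
      have hset : (univ.filter fun i =>
          c * (Fintype.card V : ℝ) ^ (1 / (k : ℝ)) ≤ hA.eigenvalues i ^ 2) =
          univ.filter fun i => t ≤ |hA.eigenvalues i| := by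
        ext i
        rw [mem_filter, mem_filter, ← htsq, ← sq_abs (hA.eigenvalues i)]
        constructor
        · rintro ⟨h, h'⟩
          exact ⟨h, (pow_le_pow_iff_left₀ ht0 (abs_nonneg _) two_ne_zero).1 h'⟩
        · rintro ⟨h, h'⟩
          exact ⟨h, pow_le_pow_left₀ ht0 h' 2⟩
      rw [hset] at h5
      have h7 := h6.trans h5
      refine ⟨h7, ?_⟩
      have h8 : (#(univ.filter fun i => t ≤ |hA.eigenvalues i|) : ℝ) * t ≤
          ∑ i, |hA.eigenvalues i| := by
        calc (#(univ.filter fun i => t ≤ |hA.eigenvalues i|) : ℝ) * t ≤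
            ∑ i ∈ univ.filter (fun i => t ≤ |hA.eigenvalues i|), |hA.eigenvalues i| := by
              rw [← nsmul_eq_mul]
              refine card_nsmul_le_sum _ _ _ fun i hi => ?_
              rw [mem_filter] at hi
              exact hi.2
          _ ≤ _ := sum_le_sum_of_subset_of_nonneg (filter_subset _ _) fun i _ _ => abs_nonneg _
      refine le_trans ?_ h8
      rcases Nat.eq_zero_or_pos (Fintype.card V) with h0 | h0
      · rw [h0]
        have : ((0 : ℕ) : ℝ) ^ (1 + 1 / (2 * (k : ℝ))) = 0 := by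
          rw [Nat.cast_zero, Real.zero_rpow (by positivity)]
        rw [this, mul_zero]
        exact mul_nonneg (Nat.cast_nonneg _) ht0
      · have hn0 : (0 : ℝ) < Fintype.card V := by exact_mod_cast h0
        have h9 : (c / (C₁ + C₂)) ^ (k + 2) * Real.sqrt c *
            (Fintype.card V : ℝ) ^ (1 + 1 / (2 * (k : ℝ))) =
            ((c / (C₁ + C₂)) ^ (k + 2) * Fintype.card V) * t := by
          rw [ht, Real.rpow_add hn0, Real.rpow_one]
          ring
        rw [h9]
        exact mul_le_mul_of_nonneg_right h7 ht0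

end Pool.Agent.HM13.LR
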