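import Pool.Agent.HM13.LR.Walk
import Pool.Agent.HM13.LR.Approx
import Pool.Agent.HM13.TR.Edges

set_option autoImplicit false
set_option linter.unusedSectionVars false

/-!
# Matrices of small rank do not approximate the edges of a graph without `C_{2k}`
-/

namespace Pool.Agent.HM13.LR

open Finset Pool.Agent.HM13.TR Pool.Agent.N721.SR

section

variable {V : Type} [Fintype V]

open Classical in
/-- the entries outside of the rows and columns of `H` -/
noncomputable def mask (H : Finset V) (W : Matrix V V ℝ) : Matrix V V ℝ :=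
  Matrix.of fun x y => if x ∈ H ∨ y ∈ H then 0 else W x y

theorem mask_rank (H : Finset V) (W : Matrix V V ℝ) : (mask H W).rank ≤ W.rank := by
  classical
  have h1 : mask H W = Matrix.diagonal (fun x => if x ∈ H then (0 : ℝ) else 1) * W *
      Matrix.diagonal (fun x => if x ∈ H then (0 : ℝ) else 1) := by
    ext x y
    rw [Matrix.mul_diagonal, Matrix.diagonal_mul]
    unfold mask
    rw [Matrix.of_apply]
    by_cases hx : x ∈ H <;> by_cases hy : y ∈ H <;> simp [hx, hy]
  rw [h1]
  exact (Matrix.rank_mul_le_left _ _).trans (Matrix.rank_mul_le_right _ _)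

theorem del_free [DecidableEq V] (G : SimpleGraph V) (k : ℕ) (hG : (SimpleGraph.cycleGraph (2 * k)).Free G)
    (H : Finset V) : (SimpleGraph.cycleGraph (2 * k)).Free (del G H) := by
  intro h
  exact hG (h.mono_right (del_le G H))

theorem sum_sq_le (G : SimpleGraph V) (W : Matrix V V ℝ) (h1 : ∀ x y, |W x y| ≤ 1)
    (hW : ∀ x y, W x y ≠ 0 → G.Adj x y) (H : Finset V) :
    ∑ x, ∑ y, W x y ^ 2 ≤ ∑ x, ∑ y, mask H W x y ^ 2 + 2 * ee G H univ := by
  classical
  have hWsq : ∀ x y, W x y ^ 2 ≤ if G.Adj x y then (1 : ℝ) else 0 := by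
    intro x y
    by_cases h : G.Adj x y
    · rw [if_pos h, ← sq_abs]
      exact pow_le_one₀ (abs_nonneg _) (h1 x y)
    · have h2 : W x y = 0 := by
        by_contra hne
        exact h (hW x y hne)
      rw [if_neg h, h2]
      norm_num
  have e1 : ee G H univ =
      ∑ x, ∑ y, if x ∈ H then (if G.Adj x y then (1 : ℝ) else 0) else 0 := by
    have e0 : ee G H univ =
        ∑ x, if x ∈ H then ∑ y, (if G.Adj x y then (1 : ℝ) else 0) else 0 := by
      unfold ee
      rw [sum_ite_mem, univ_inter]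
    rw [e0]
    refine sum_congr rfl fun x _ => ?_
    by_cases h : x ∈ H
    · rw [if_pos h]
      exact sum_congr rfl fun y _ => by rw [if_pos h]
    · rw [if_neg h]
      exact (sum_eq_zero fun y _ => by rw [if_neg h]).symm
  have e2 : ee G H univ =
      ∑ x, ∑ y, if y ∈ H then (if G.Adj x y then (1 : ℝ) else 0) else 0 := by
    rw [ee_comm]
    unfold ee
    refine sum_congr rfl fun x _ => ?_
    rw [sum_ite_mem, univ_inter]
  have e3 : 2 * ee G H univ = ∑ x, ∑ y, ((if x ∈ H then (if G.Adj x y then (1 : ℝ) else 0) else 0) +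
      (if y ∈ H then (if G.Adj x y then (1 : ℝ) else 0) else 0)) := by
    rw [two_mul]
    conv_lhs => rw [e1]
    conv_lhs => rw [← e1, e2, ← e2]
    nth_rewrite 1 [e1]
    rw [e2, ← sum_add_distrib]
    exact sum_congr rfl fun x _ => by rw [← sum_add_distrib]
  rw [e3, ← sum_add_distrib]
  refine sum_le_sum fun x _ => ?_
  rw [← sum_add_distrib]
  refine sum_le_sum fun y _ => ?_
  have h2 := hWsq x y
  have h3 : (0 : ℝ) ≤ if G.Adj x y then (1 : ℝ) else 0 := by split_ifs <;> norm_num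
  unfold mask
  rw [Matrix.of_apply]
  by_cases hx : x ∈ H
  · rw [if_pos (Or.inl hx), if_pos hx]
    by_cases hy : y ∈ H
    · rw [if_pos hy]; linarith
    · rw [if_neg hy]; linarith
  · by_cases hy : y ∈ H
    · rw [if_pos (Or.inr hy), if_neg hx, if_pos hy]; linarith
    · rw [if_neg (by tauto), if_neg hx, if_neg hy]; linarith

theorem mask_diff (H : Finset V) (W L : Matrix V V ℝ) :
    ∑ x, ∑ y, (mask H W x y - mask H L x y) ^ 2 ≤ ∑ x, ∑ y, (W x y - L x y) ^ 2 := by
  classical
  refine sum_le_sum fun x _ => sum_le_sum fun y _ => ?_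
  unfold mask
  rw [Matrix.of_apply, Matrix.of_apply]
  split_ifs
  · have := sq_nonneg (W x y - L x y)
    simpa using this
  · exact le_rfl

theorem del_deg [DecidableEq V] (G : SimpleGraph V) (D : ℝ) (hD : 0 ≤ D) (H : Finset V)
    (hH : ∀ x, x ∉ H → ee G {x} univ ≤ D) (x : V) : ee (del G H) {x} univ ≤ D := by
  classical
  by_cases hx : x ∈ H
  · have h1 : ee (del G H) {x} univ = 0 := by
      unfold ee
      rw [sum_singleton]
      refine sum_eq_zero fun y _ => ?_
      rw [if_neg]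
      intro h
      exact h.2.1 hx
    rw [h1]
    exact hD
  · refine le_trans ?_ (hH x hx)
    unfold ee
    rw [sum_singleton, sum_singleton]
    refine sum_le_sum fun y _ => ?_
    by_cases h : (del G H).Adj x y
    · rw [if_pos h, if_pos (del_le G H h)]
    · rw [if_neg h]
      split_ifs <;> norm_num

/-- **Low-rank matrices capture little.** -/
theorem low_rank (k : ℕ) (hk : 2 ≤ k) : ∃ C : ℝ, 0 < C ∧
    ∀ (V : Type) [Fintype V] (G : SimpleGraph V), (SimpleGraph.cycleGraph (2 * k)).Free G →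
      ∀ W L : Matrix V V ℝ, (∀ x y, |W x y| ≤ 1) → (∀ x y, W x y ≠ 0 → G.Adj x y) →
        ∑ x, ∑ y, W x y ^ 2 ≤ ∑ x, ∑ y, (W x y - L x y) ^ 2 +
          C * ((L.rank : ℝ) / Fintype.card V) ^ (1 / ((k : ℝ) + 2)) *
            (Fintype.card V : ℝ) ^ (1 + 1 / (k : ℝ)) := by
  classical
  have hk0 : (0 : ℝ) < k := by
    have : 0 < k := by omega
    exact_mod_cast this
  obtain ⟨C₁, hC₁, hsm⟩ := ee_small k hk
  obtain ⟨β, hβ⟩ : ∃ β : ℝ, β = 1 / ((k : ℝ) + 2) := ⟨_, rfl⟩
  have hβ0 : 0 < β := by rw [hβ]; positivity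
  have hkβ : (k : ℝ) * β + 2 * β = 1 := by
    rw [hβ]; field_simp
  rw [← hβ]
  refine ⟨2 * (C₁ * (1 + C₁)) + Real.sqrt (6 * k * C₁), by positivity,
    fun V _ G hG W L h1 hW => ?_⟩
  obtain ⟨n, hn⟩ : ∃ n : ℝ, n = (Fintype.card V : ℝ) := ⟨_, rfl⟩
  obtain ⟨r, hr⟩ : ∃ r : ℝ, r = (L.rank : ℝ) := ⟨_, rfl⟩
  rw [← hn, ← hr]
  have hsm' := hsm V G hG
  rw [← hn] at hsm'
  have hr0' : 0 ≤ r := by rw [hr]; positivity
  have hn0' : 0 ≤ n := by rw [hn]; positivity
  rcases hr0'.eq_or_lt with hr0 | hr0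
  · -- rank zero
    have h2 := approx_ineq W L
    rw [← hr, ← hr0, zero_mul, Real.sqrt_zero, add_zero] at h2
    rw [← hr0, zero_div, Real.zero_rpow hβ0.ne', mul_zero, zero_mul, add_zero]
    exact h2
  have hrn : r ≤ n := by
    rw [hr, hn]
    have := L.rank_le_card_width
    exact_mod_cast this
  have hn0 : 0 < n := by linarith
  obtain ⟨N, hN⟩ : ∃ N : ℝ, N = n ^ (1 / (k : ℝ)) := ⟨_, rfl⟩
  have hN0 : 0 < N := by rw [hN]; positivity
  have hnN : n ^ (1 + 1 / (k : ℝ)) = n * N := by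
    rw [Real.rpow_add hn0, Real.rpow_one, hN]
  obtain ⟨ρ, hρ⟩ : ∃ ρ : ℝ, ρ = r / n := ⟨_, rfl⟩
  have hρ0 : 0 < ρ := by rw [hρ]; positivity
  rw [hnN, ← hρ]
  obtain ⟨σ, hσ⟩ : ∃ σ : ℝ, σ = ρ ^ β := ⟨_, rfl⟩
  have hσ0 : 0 < σ := by rw [hσ]; positivity
  rw [← hσ]
  -- the threshold for the degrees
  obtain ⟨D, hD⟩ : ∃ D : ℝ, D = N / σ ^ k := ⟨_, rfl⟩
  have hD0 : 0 < D := by rw [hD]; positivity
  have hρσ : ρ = σ ^ k * σ ^ 2 := by
    rw [hσ, ← Real.rpow_natCast, ← Real.rpow_mul hρ0.le, ← Real.rpow_natCast,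
      ← Real.rpow_mul hρ0.le, ← Real.rpow_add hρ0]
    have : β * (k : ℝ) + β * ((2 : ℕ) : ℝ) = 1 := by push_cast; linarith
    rw [this, Real.rpow_one]
  set H : Finset V := univ.filter fun x => D < ee G {x} univ with hH
  have hall : ee G univ univ ≤ C₁ * (n * N) := by
    have h2 := hsm' univ
    rw [card_univ, ← hn, ← hN] at h2
    linarith
  have hHcard : (#H : ℝ) ≤ C₁ * n * σ ^ k := by
    have h2 : (#H : ℝ) * D ≤ ee G H univ := by
      rw [ee_degree', ← nsmul_eq_mul]
      refine card_nsmul_le_sum _ _ _ fun x hx => ?_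
      rw [hH, mem_filter] at hx
      exact hx.2.le
    have h3 : ee G H univ ≤ ee G univ univ := ee_mono G (subset_univ _) Subset.rfl
    have h4 : (#H : ℝ) * D ≤ (C₁ * n * σ ^ k) * D := by
      refine (h2.trans (h3.trans hall)).trans (le_of_eq ?_)
      rw [hD]
      field_simp
    exact le_of_mul_le_mul_right h4 hD0
  have hHee : ee G H univ ≤ C₁ * (1 + C₁) * (σ * (n * N)) := by
    refine (hsm' H).trans ?_
    have h2 : (#H : ℝ) ^ (1 / (k : ℝ)) ≤ (1 + C₁) * (N * σ) := by
      calc (#H : ℝ) ^ (1 / (k : ℝ)) ≤ (C₁ * n * σ ^ k) ^ (1 / (k : ℝ)) :=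
            Real.rpow_le_rpow (Nat.cast_nonneg _) hHcard (by positivity)
        _ = C₁ ^ (1 / (k : ℝ)) * N * σ := by
            rw [Real.mul_rpow (by positivity) (by positivity),
              Real.mul_rpow hC₁.le hn0.le, ← hN]
            congr 1
            rw [← Real.rpow_natCast, ← Real.rpow_mul hσ0.le, mul_one_div_cancel hk0.ne',
              Real.rpow_one]
        _ ≤ (1 + C₁) * (N * σ) := by
            have h3 : C₁ ^ (1 / (k : ℝ)) ≤ 1 + C₁ := by
              calc C₁ ^ (1 / (k : ℝ)) ≤ (1 + C₁) ^ (1 / (k : ℝ)) :=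
                    Real.rpow_le_rpow hC₁.le (by linarith) (by positivity)
                _ ≤ (1 + C₁) ^ (1 : ℝ) := by
                    refine Real.rpow_le_rpow_of_exponent_le (by linarith) ?_
                    rw [div_le_one hk0]
                    have : 1 ≤ k := by omega
                    exact_mod_cast this
                _ = 1 + C₁ := Real.rpow_one _
            rw [mul_assoc]
            exact mul_le_mul_of_nonneg_right h3 (by positivity)
    calc C₁ * n * (#H : ℝ) ^ (1 / (k : ℝ)) ≤ C₁ * n * ((1 + C₁) * (N * σ)) :=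
          mul_le_mul_of_nonneg_left h2 (by positivity)
      _ = _ := by ring
  -- the masked matrices
  have hm1 : ∀ x y, |mask H W x y| ≤ 1 := by
    intro x y
    unfold mask
    rw [Matrix.of_apply]
    split_ifs
    · simp
    · exact h1 x y
  have hm2 : ∀ x y, mask H W x y ≠ 0 → (del G H).Adj x y := by
    intro x y h
    unfold mask at h
    rw [Matrix.of_apply] at h
    by_cases hc : x ∈ H ∨ y ∈ H
    · rw [if_pos hc] at h
      exact absurd rfl h
    · rw [if_neg hc] at h
      push Not at hc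
      exact ⟨hW x y h, hc.1, hc.2⟩
  have hw4 := walk4 (del G H) k hk (del_free G k hG H) D hD0 (mask H W) hm1 hm2
    (del_deg G D hD0.le H (fun x hx => by
      rw [hH, mem_filter] at hx
      push Not at hx
      exact hx (mem_univ _)))
  have hsq : ∑ x, ∑ y, mask H W x y ^ 2 ≤ C₁ * (n * N) := by
    refine le_trans ?_ hall
    unfold ee
    refine sum_le_sum fun x _ => sum_le_sum fun y _ => ?_
    by_cases h : mask H W x y = 0
    · rw [h]
      split_ifs <;> norm_num
    · have h2 := hm2 x y h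
      rw [if_pos h2.1, ← sq_abs]
      exact pow_le_one₀ (abs_nonneg _) (hm1 x y)
  have happ := approx_ineq (mask H W) (mask H L)
  have hsqrt : Real.sqrt ((mask H L).rank * ∑ x, ∑ x', (∑ y, mask H W x y * mask H W x' y) ^ 2) ≤
      Real.sqrt (6 * k * C₁) * (σ * (n * N)) := by
    have h2 : ((mask H L).rank : ℝ) * ∑ x, ∑ x', (∑ y, mask H W x y * mask H W x' y) ^ 2 ≤
        (6 * k * C₁) * (σ * (n * N)) ^ 2 := by
      have h3 : ((mask H L).rank : ℝ) ≤ r := by
        rw [hr]
        exact_mod_cast mask_rank H L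
      calc ((mask H L).rank : ℝ) * ∑ x, ∑ x', (∑ y, mask H W x y * mask H W x' y) ^ 2 ≤
          r * (6 * (k : ℝ) * D * (C₁ * (n * N))) := by
            refine mul_le_mul h3 (hw4.trans ?_) (by positivity) hr0.le
            exact mul_le_mul_of_nonneg_left hsq (by positivity)
        _ = (6 * k * C₁) * (σ * (n * N)) ^ 2 := by
            have h4 : r = σ ^ k * σ ^ 2 * n := by
              rw [← hρσ, hρ]; field_simp
            rw [h4, hD]
            field_simp
    calc _ ≤ Real.sqrt ((6 * k * C₁) * (σ * (n * N)) ^ 2) := Real.sqrt_le_sqrt h2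
      _ = _ := by
          rw [Real.sqrt_mul (by positivity), Real.sqrt_sq (by positivity)]
  have h5 := sum_sq_le G W h1 hW H
  have h6 := mask_diff H W L
  calc ∑ x, ∑ y, W x y ^ 2 ≤ ∑ x, ∑ y, mask H W x y ^ 2 + 2 * ee G H univ := h5
    _ ≤ (∑ x, ∑ y, (W x y - L x y) ^ 2 + Real.sqrt (6 * k * C₁) * (σ * (n * N))) +
        2 * (C₁ * (1 + C₁) * (σ * (n * N))) := by linarith
    _ = _ := by ring

end

end Pool.Agent.HM13.LR
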