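import Pool.Agent.HM13.LR.Low

set_option autoImplicit false
set_option linter.unusedSectionVars false

/-!
# The spectrum of a graph without `C_{2k}`
-/

namespace Pool.Agent.HM13.LR

open Finset Pool.Agent.HM13.TR Pool.Agent.N721.SR

section

variable {V : Type} [Fintype V] [DecidableEq V]

theorem decomp (A : Matrix V V ℝ) (hA : A.IsHermitian) :
    ∃ w : V → V → ℝ, (∀ i j, ∑ x, w i x * w j x = if i = j then 1 else 0) ∧
      ∀ x y, A x y = ∑ i, hA.eigenvalues i * w i x * w i y := by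
  set U : Matrix V V ℝ := (hA.eigenvectorUnitary : Matrix V V ℝ) with hU
  have hU1 : U * star U = 1 := Unitary.coe_mul_star_self hA.eigenvectorUnitary
  have hU2 : star U * U = 1 := Unitary.coe_star_mul_self hA.eigenvectorUnitary
  have hAU : ∀ i x, ∑ z, A x z * U z i = hA.eigenvalues i * U x i := by
    intro i x
    have h := congrFun (hA.mulVec_eigenvectorBasis i) x
    simpa [Matrix.mulVec, dotProduct, hU, Matrix.IsHermitian.eigenvectorUnitary_apply] using h
  refine ⟨fun i x => U x i, fun i j => ?_, fun x y => ?_⟩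
  · have h := congrFun (congrFun hU2 i) j
    rw [Matrix.mul_apply, Matrix.one_apply] at h
    rw [← h]
    refine Finset.sum_congr rfl fun x _ => ?_
    rw [Matrix.star_apply, star_trivial]
  · have h1 : A x y = ∑ z, A x z * (U * star U) z y := by
      rw [hU1, ← Matrix.mul_apply, mul_one]
    rw [h1]
    calc ∑ z, A x z * (U * star U) z y = ∑ z, ∑ i, (A x z * U z i) * U y i := by
          refine sum_congr rfl fun z _ => ?_
          rw [Matrix.mul_apply, mul_sum]
          refine sum_congr rfl fun i _ => ?_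
          rw [Matrix.star_apply, star_trivial]
          ring
      _ = ∑ i, ∑ z, (A x z * U z i) * U y i := sum_comm
      _ = _ := by
          refine sum_congr rfl fun i _ => ?_
          rw [← sum_mul, hAU i x]

theorem sq_norm (w : V → V → ℝ) (hw : ∀ i j, ∑ x, w i x * w j x = if i = j then 1 else 0)
    (c : V → ℝ) : ∑ x, ∑ y, (∑ i, c i * w i x * w i y) ^ 2 = ∑ i, c i ^ 2 := by
  calc ∑ x, ∑ y, (∑ i, c i * w i x * w i y) ^ 2 =
      ∑ x, ∑ y, ∑ i, ∑ j, (c i * c j) * ((w i x * w j x) * (w i y * w j y)) := by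
        refine sum_congr rfl fun x _ => sum_congr rfl fun y _ => ?_
        rw [sq, sum_mul_sum]
        exact sum_congr rfl fun i _ => sum_congr rfl fun j _ => by ring
    _ = ∑ x, ∑ i, ∑ j, ∑ y, (c i * c j) * ((w i x * w j x) * (w i y * w j y)) := by
        refine sum_congr rfl fun x _ => ?_
        rw [sum_comm]
        exact sum_congr rfl fun i _ => sum_comm
    _ = ∑ x, ∑ i, ∑ j, (c i * c j) * ((w i x * w j x) * (if i = j then 1 else 0)) := by
        refine sum_congr rfl fun x _ => sum_congr rfl fun i _ => sum_congr rfl fun j _ => ?_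
        rw [← mul_sum, ← mul_sum, hw]
    _ = ∑ x, ∑ i, c i ^ 2 * (w i x * w i x) := by
        refine sum_congr rfl fun x _ => sum_congr rfl fun i _ => ?_
        simp [sq]
    _ = ∑ i, ∑ x, c i ^ 2 * (w i x * w i x) := sum_comm
    _ = _ := by
        refine sum_congr rfl fun i _ => ?_
        rw [← mul_sum, hw, if_pos rfl, mul_one]

theorem truncation (A : Matrix V V ℝ) (hA : A.IsHermitian) (J : Finset V) :
    ∃ L : Matrix V V ℝ, L.rank ≤ #J ∧
      ∑ x, ∑ y, (A x y - L x y) ^ 2 = ∑ i ∈ univ \ J, hA.eigenvalues i ^ 2 ∧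
      ∑ x, ∑ y, A x y ^ 2 = ∑ i, hA.eigenvalues i ^ 2 := by
  obtain ⟨w, hw, hAw⟩ := decomp A hA
  refine ⟨Matrix.of fun x y => ∑ i, (if i ∈ J then hA.eigenvalues i else 0) * w i x * w i y,
    ?_, ?_, ?_⟩
  · set B : Matrix V J ℝ := Matrix.of fun x i => hA.eigenvalues i * w i x with hB
    set C : Matrix J V ℝ := Matrix.of fun i y => w i y with hC
    have h1 : (Matrix.of fun x y => ∑ i, (if i ∈ J then hA.eigenvalues i else 0) * w i x * w i y :
        Matrix V V ℝ) = B * C := by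
      ext x y
      rw [Matrix.mul_apply, Matrix.of_apply]
      simp only [hB, hC, Matrix.of_apply]
      rw [sum_coe_sort J (fun i => hA.eigenvalues i * w i x * w i y)]
      calc ∑ i, (if i ∈ J then hA.eigenvalues i else 0) * w i x * w i y =
          ∑ i, if i ∈ J then hA.eigenvalues i * w i x * w i y else 0 := by
            refine sum_congr rfl fun i _ => ?_
            split_ifs <;> ring
        _ = _ := by rw [sum_ite_mem, univ_inter]
    rw [h1]
    refine (Matrix.rank_mul_le_left _ _).trans ?_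
    refine (Matrix.rank_le_card_width _).trans ?_
    rw [Fintype.card_coe]
  · have h1 : ∀ x y, A x y - (Matrix.of fun x y => ∑ i, (if i ∈ J then hA.eigenvalues i else 0) *
        w i x * w i y : Matrix V V ℝ) x y =
        ∑ i, (if i ∈ J then 0 else hA.eigenvalues i) * w i x * w i y := by
      intro x y
      rw [hAw, Matrix.of_apply, ← sum_sub_distrib]
      refine sum_congr rfl fun i _ => ?_
      split_ifs <;> ring
    simp only [h1]
    rw [sq_norm w hw]
    rw [sdiff_eq_filter, sum_filter]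
    refine sum_congr rfl fun i _ => ?_
    by_cases h : i ∈ J <;> simp [h]
  · have h1 : ∀ x y, A x y = ∑ i, hA.eigenvalues i * w i x * w i y := hAw
    simp only [h1]
    exact sq_norm w hw _

end

/-- **The large eigenvalues.** -/
theorem large_eigenvalues (k : ℕ) (hk : 2 ≤ k) : ∃ C : ℝ, 0 < C ∧
    ∀ (V : Type) [Fintype V] [DecidableEq V] (G : SimpleGraph V) [DecidableRel G.Adj],
      (SimpleGraph.cycleGraph (2 * k)).Free G → ∀ hA : (G.adjMatrix ℝ).IsHermitian,
      (∀ J : Finset V, ∑ i ∈ J, hA.eigenvalues i ^ 2 ≤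
        C * ((#J : ℝ) / Fintype.card V) ^ (1 / ((k : ℝ) + 2)) *
          (Fintype.card V : ℝ) ^ (1 + 1 / (k : ℝ))) ∧
      (∀ c : ℝ, 0 < c → c * (Fintype.card V : ℝ) ^ (1 + 1 / (k : ℝ)) ≤ Nat.card G.edgeSet →
        (c / C) ^ (k + 2) * Fintype.card V ≤
          #{i | c * (Fintype.card V : ℝ) ^ (1 / (k : ℝ)) ≤ hA.eigenvalues i ^ 2}) := by
  obtain ⟨C, hC, hlow⟩ := low_rank k hk
  refine ⟨C, hC, fun V _ _ G _ hG hA => ?_⟩
  have hk0 : (0 : ℝ) < k := by
    have : 0 < k := by omega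
    exact_mod_cast this
  have h1 : ∀ x y, |G.adjMatrix ℝ x y| ≤ 1 := by
    intro x y
    rw [SimpleGraph.adjMatrix_apply]
    split_ifs <;> simp
  have h2 : ∀ x y, G.adjMatrix ℝ x y ≠ 0 → G.Adj x y := by
    intro x y h
    by_contra hne
    apply h
    rw [SimpleGraph.adjMatrix_apply, if_neg hne]
  have main : ∀ J : Finset V, ∑ i ∈ J, hA.eigenvalues i ^ 2 ≤
      C * ((#J : ℝ) / Fintype.card V) ^ (1 / ((k : ℝ) + 2)) *
        (Fintype.card V : ℝ) ^ (1 + 1 / (k : ℝ)) := by
    intro J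
    obtain ⟨L, hL, e1, e2⟩ := truncation (G.adjMatrix ℝ) hA J
    have h3 := hlow V G hG (G.adjMatrix ℝ) L h1 h2
    rw [e1, e2] at h3
    have h4 : ∑ i, hA.eigenvalues i ^ 2 =
        ∑ i ∈ univ \ J, hA.eigenvalues i ^ 2 + ∑ i ∈ J, hA.eigenvalues i ^ 2 :=
      (sum_sdiff (subset_univ J)).symm
    have h5 : C * ((L.rank : ℝ) / Fintype.card V) ^ (1 / ((k : ℝ) + 2)) *
        (Fintype.card V : ℝ) ^ (1 + 1 / (k : ℝ)) ≤
        C * ((#J : ℝ) / Fintype.card V) ^ (1 / ((k : ℝ) + 2)) *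
        (Fintype.card V : ℝ) ^ (1 + 1 / (k : ℝ)) := by
      refine mul_le_mul_of_nonneg_right ?_ (by positivity)
      refine mul_le_mul_of_nonneg_left ?_ hC.le
      refine Real.rpow_le_rpow (by positivity) ?_ (by positivity)
      refine div_le_div_of_nonneg_right ?_ (by positivity)
      exact_mod_cast hL
    linarith
  refine ⟨main, fun c hc he => ?_⟩
  set J : Finset V := univ.filter fun i =>
    c * (Fintype.card V : ℝ) ^ (1 / (k : ℝ)) ≤ hA.eigenvalues i ^ 2 with hJ
  rcases Nat.eq_zero_or_pos (Fintype.card V) with h0 | h0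
  · rw [h0]
    simp
  have hn0 : (0 : ℝ) < Fintype.card V := by exact_mod_cast h0
  obtain ⟨n, hn⟩ : ∃ n : ℝ, n = (Fintype.card V : ℝ) := ⟨_, rfl⟩
  have hmain := main J
  obtain ⟨L, -, -, e2⟩ := truncation (G.adjMatrix ℝ) hA J
  have h3 : ∑ x, ∑ y, G.adjMatrix ℝ x y ^ 2 = 2 * (Nat.card G.edgeSet : ℝ) := by
    rw [← edges_eq]
    unfold ee
    refine sum_congr rfl fun x _ => sum_congr rfl fun y _ => ?_
    rw [SimpleGraph.adjMatrix_apply]
    by_cases h : G.Adj x y <;> simp [h]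
  rw [h3] at e2
  have h4 : ∑ i ∈ univ \ J, hA.eigenvalues i ^ 2 ≤
      c * (Fintype.card V : ℝ) ^ (1 + 1 / (k : ℝ)) := by
    have h5 : ∀ i ∈ univ \ J, hA.eigenvalues i ^ 2 ≤ c * (Fintype.card V : ℝ) ^ (1 / (k : ℝ)) := by
      intro i hi
      rw [mem_sdiff, hJ, mem_filter] at hi
      push Not at hi
      exact (hi.2 (mem_univ _)).le
    refine (sum_le_card_nsmul _ _ _ h5).trans ?_
    rw [nsmul_eq_mul, Real.rpow_add hn0, Real.rpow_one]
    have h6 : ((#(univ \ J) : ℕ) : ℝ) ≤ Fintype.card V := by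
      exact_mod_cast card_le_univ _
    calc ((#(univ \ J) : ℕ) : ℝ) * (c * (Fintype.card V : ℝ) ^ (1 / (k : ℝ))) ≤
        Fintype.card V * (c * (Fintype.card V : ℝ) ^ (1 / (k : ℝ))) :=
          mul_le_mul_of_nonneg_right h6 (by positivity)
      _ = _ := by ring
  have h5 : ∑ i, hA.eigenvalues i ^ 2 =
      ∑ i ∈ univ \ J, hA.eigenvalues i ^ 2 + ∑ i ∈ J, hA.eigenvalues i ^ 2 :=
    (sum_sdiff (subset_univ J)).symm
  have h6 : c * (Fintype.card V : ℝ) ^ (1 + 1 / (k : ℝ)) ≤
      C * ((#J : ℝ) / Fintype.card V) ^ (1 / ((k : ℝ) + 2)) *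
        (Fintype.card V : ℝ) ^ (1 + 1 / (k : ℝ)) := by
    linarith
  have h7 : c ≤ C * ((#J : ℝ) / Fintype.card V) ^ (1 / ((k : ℝ) + 2)) :=
    le_of_mul_le_mul_right h6 (by positivity)
  have h8 : c / C ≤ ((#J : ℝ) / Fintype.card V) ^ (1 / ((k : ℝ) + 2)) := by
    rw [div_le_iff₀ hC]; linarith
  have h9 := pow_le_pow_left₀ (by positivity) h8 (k + 2)
  have h10 : (((#J : ℝ) / Fintype.card V) ^ (1 / ((k : ℝ) + 2))) ^ (k + 2) =
      (#J : ℝ) / Fintype.card V := by
    rw [← Real.rpow_natCast, ← Real.rpow_mul (by positivity)]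
    have : 1 / ((k : ℝ) + 2) * ((k + 2 : ℕ) : ℝ) = 1 := by
      push_cast
      field_simp
    rw [this, Real.rpow_one]
  rw [h10, le_div_iff₀ hn0] at h9
  exact h9

end Pool.Agent.HM13.LR
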