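import Pool.Agent.HM13.TR.Graph

set_option autoImplicit false
set_option linter.unusedSectionVars false

/-!
# Weighted closed walks of length four in graphs without `C_{2k}`
-/

namespace Pool.Agent.HM13.LR

open Finset Pool.Agent.HM13.TR

section

variable {V : Type} [Fintype V]

open Classical in
/-- the pairs of neighbours of `y` with many common neighbours can be oriented with small
out-degrees -/
theorem orient_of_free (G : SimpleGraph V) (k : ℕ) (hk : 2 ≤ k)
    (hG : (SimpleGraph.cycleGraph (2 * k)).Free G) (y : V) :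
    ∃ R : V → V → Prop, (∀ x x', bad G.Adj (2 * k) x x' → G.Adj x y → G.Adj x' y →
        R x x' ∨ R x' x) ∧
      ∀ x, #{x' | (bad G.Adj (2 * k) x x' ∧ G.Adj x y ∧ G.Adj x' y) ∧ R x x'} ≤ k - 2 := by
  have : NeZero (2 * k) := ⟨by omega⟩
  obtain ⟨R, h1, h2⟩ := exists_orient
    (fun x x' => bad G.Adj (2 * k) x x' ∧ G.Adj x y ∧ G.Adj x' y) (k - 2) (by
    intro S hS
    by_contra hcon
    push Not at hcon
    obtain ⟨x, hinj, -, hT⟩ := exists_path
      (fun x x' => bad G.Adj (2 * k) x x' ∧ G.Adj x y ∧ G.Adj x' y)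
      (fun x hx => hx.1.1 rfl) k S hS (fun x hx => by have := hcon x hx; omega) (k - 1) (by omega)
    -- a system of representatives
    obtain ⟨f, hf, hf'⟩ := (Finset.all_card_le_biUnion_card_iff_exists_injective
      (fun i : Fin (k - 1) =>
        (univ.filter fun y' => G.Adj (x i.castSucc) y' ∧ G.Adj (x i.succ) y') \
          (insert y (univ.image x)))).1 (by
      intro s
      rcases s.eq_empty_or_nonempty with h0 | ⟨i, hi⟩
      · rw [h0]; simp
      · have h3 : #s ≤ k - 1 := by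
          have := card_le_univ s
          rwa [Fintype.card_fin] at this
        have h4 : k - 1 ≤ #((univ.filter fun y' => G.Adj (x i.castSucc) y' ∧ G.Adj (x i.succ) y') \
            (insert y (univ.image x))) := by
          have h5 := (hT i).1.2
          have h6 := le_card_sdiff (insert y (univ.image x))
            (univ.filter fun y' => G.Adj (x i.castSucc) y' ∧ G.Adj (x i.succ) y')
          have h7 : #(insert y (univ.image x)) ≤ k + 1 := by
            refine (card_insert_le _ _).trans ?_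
            have := card_image_le (s := (univ : Finset (Fin (k - 1 + 1)))) (f := x)
            rw [card_univ, Fintype.card_fin] at this
            omega
          omega
        exact (h3.trans h4).trans (card_le_card (subset_biUnion_of_mem (fun i : Fin (k - 1) =>
          (univ.filter fun y' => G.Adj (x i.castSucc) y' ∧ G.Adj (x i.succ) y') \
          (insert y (univ.image x))) hi)))
    obtain ⟨m, rfl⟩ : ∃ m, k = m + 1 := ⟨k - 1, by omega⟩
    have hne : ∀ i : Fin (m + 1 - 1), f i ≠ y ∧ ∀ j, x j ≠ f i := by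
      intro i
      have h3 := hf' i
      rw [mem_sdiff, mem_insert, not_or, mem_image] at h3
      exact ⟨h3.2.1, fun j hj => h3.2.2 ⟨j, mem_univ _, hj⟩⟩
    have hxy : ∀ j : Fin (m + 1), x j ≠ y := by
      intro j hj
      by_cases h0 : j.val < m
      · have := (hT ⟨j.val, h0⟩).2.1
        exact this.ne hj
      · have hm1 : 0 < m := by omega
        have := (hT ⟨m - 1, by omega⟩).2.2
        apply this.ne
        rw [← hj]
        congr 1
        apply Fin.ext
        have := j.2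
        simp
        omega
    -- the alternating closed walk
    have hyinj : Function.Injective (Fin.snoc f y : Fin (m + 1) → V) := by
      rw [Fin.snoc_injective_iff]
      refine ⟨hf, ?_⟩
      rintro ⟨i, hi⟩
      exact (hne i).1 hi
    have hstep : ∀ i : Fin (m + 1), G.Adj (x i) ((Fin.snoc f y : Fin (m + 1) → V) i) ∧
        G.Adj (x (i + 1 : Fin (m + 1))) ((Fin.snoc f y : Fin (m + 1) → V) i) := by
      intro i
      refine Fin.lastCases ?_ (fun i => ?_) i
      · rw [Fin.snoc_last, Fin.last_add_one]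
        have hm1 : 0 < m := by omega
        have e1 := (hT ⟨m - 1, by omega⟩).2.2
        have e2 := (hT ⟨0, by omega⟩).2.1
        refine ⟨?_, ?_⟩
        · convert e1 using 2
          ext
          simp
          omega
        · exact e2
      · rw [Fin.snoc_castSucc]
        have h3 := hf' i
        rw [mem_sdiff, mem_filter] at h3
        rw [Fin.coeSucc_eq_succ]
        exact h3.1.2
    have hdisj : ∀ i j : Fin (m + 1), x i ≠ (Fin.snoc f y : Fin (m + 1) → V) j := by
      intro i j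
      refine Fin.lastCases ?_ (fun j => ?_) j
      · rw [Fin.snoc_last]; exact hxy i
      · rw [Fin.snoc_castSucc]; exact (hne j).2 i
    exact noCyc_of_free G (m + 1) hk hG (fun i : Fin (m + 1) => x i)
      (Fin.snoc f y : Fin (m + 1) → V) (fun i j hij => hinj hij) hyinj hdisj
      (fun i j => G.Adj (x i) ((Fin.snoc f y : Fin (m + 1) → V) j)) (fun i j h => h)
      (fun i => i) (fun i => i) (fun i j h => h) (fun i j h => h) (fun i => hstep i))
  exact ⟨R, fun x x' hb hx hx' => h1 x x' ⟨hb, hx, hx'⟩, fun x => by convert h2 x⟩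

open Classical in
theorem sum_bound_graph (G : SimpleGraph V) (k : ℕ) (hk : 2 ≤ k)
    (hG : (SimpleGraph.cycleGraph (2 * k)).Free G)
    (p : V → V → ℝ) (hp : ∀ x y, 0 ≤ p x y) (hE : ∀ x y, p x y ≠ 0 → G.Adj x y)
    (hrow : ∀ x, ∑ y, p x y ^ 2 ≤ 1) (hcol : ∀ y, ∑ x, p x y ^ 2 ≤ 1) :
    ∑ x, ∑ x', (∑ y, p x y * p x' y) ^ 2 ≤ 6 * (k : ℝ) * ∑ x, ∑ y, p x y ^ 2 := by
  have : NeZero (2 * k) := ⟨by omega⟩
  choose R hR1 hR2 using fun y => orient_of_free G k hk hG y
  have hk2 : (0 : ℝ) ≤ (k : ℝ) - 2 := by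
    have : (2 : ℝ) ≤ k := by exact_mod_cast hk
    linarith
  set τ := ∑ x, ∑ y, p x y ^ 2 with hτ
  have hτ0 : 0 ≤ τ := sum_nonneg fun x _ => sum_nonneg fun y _ => sq_nonneg _
  have t1 : ∑ x, ∑ x', (if x = x' then ∑ y, p x y ^ 2 else 0) = τ := by
    refine sum_congr rfl fun x _ => ?_
    rw [sum_ite_eq, if_pos (mem_univ _)]
  have t2 : ∑ x, ∑ x', ∑ y, p x y ^ 2 * p x' y ^ 2 ≤ τ := by
    have e1 : ∑ x, ∑ x', ∑ y, p x y ^ 2 * p x' y ^ 2 = ∑ y, (∑ x, p x y ^ 2) * ∑ x', p x' y ^ 2 := by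
      calc ∑ x, ∑ x', ∑ y, p x y ^ 2 * p x' y ^ 2 = ∑ x, ∑ y, ∑ x', p x y ^ 2 * p x' y ^ 2 :=
            sum_congr rfl fun x _ => sum_comm
        _ = ∑ y, ∑ x, ∑ x', p x y ^ 2 * p x' y ^ 2 := sum_comm
        _ = _ := by
            refine sum_congr rfl fun y _ => ?_
            rw [sum_mul_sum]
    rw [e1]
    calc ∑ y, (∑ x, p x y ^ 2) * ∑ x', p x' y ^ 2 ≤ ∑ y, ∑ x, p x y ^ 2 :=
          sum_le_sum fun y _ => mul_le_of_le_one_right (sum_nonneg fun x _ => sq_nonneg _) (hcol y)
      _ = τ := sum_comm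
  have t3 : ∑ x, ∑ x', ∑ y, (if (bad G.Adj (2 * k) x x' ∧ G.Adj x y ∧ G.Adj x' y) ∧ R y x x'
      then p x y ^ 2 else 0) ≤ ((k : ℝ) - 2) * τ := by
    calc ∑ x, ∑ x', ∑ y, (if (bad G.Adj (2 * k) x x' ∧ G.Adj x y ∧ G.Adj x' y) ∧ R y x x'
          then p x y ^ 2 else 0) =
        ∑ x, ∑ y, ∑ x', (if (bad G.Adj (2 * k) x x' ∧ G.Adj x y ∧ G.Adj x' y) ∧ R y x x'
          then p x y ^ 2 else 0) :=
          sum_congr rfl fun x _ => sum_comm
      _ ≤ ∑ x, ∑ y, ((k : ℝ) - 2) * p x y ^ 2 := by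
          refine sum_le_sum fun x _ => sum_le_sum fun y _ => ?_
          rw [← sum_filter, sum_const, nsmul_eq_mul]
          refine mul_le_mul_of_nonneg_right ?_ (sq_nonneg _)
          have h1 := hR2 y x
          have h2 : ((k - 2 : ℕ) : ℝ) = (k : ℝ) - 2 := by
            rw [Nat.cast_sub hk]; norm_num
          rw [← h2]
          exact_mod_cast h1
      _ = _ := by
          rw [hτ, mul_sum]
          exact sum_congr rfl fun x _ => by rw [mul_sum]
  have t4 : ∑ x, ∑ x', ∑ y, (if (bad G.Adj (2 * k) x' x ∧ G.Adj x' y ∧ G.Adj x y) ∧ R y x' x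
      then p x' y ^ 2 else 0) ≤ ((k : ℝ) - 2) * τ := by
    rw [sum_comm]
    exact t3
  have main : ∑ x, ∑ x', (∑ y, p x y * p x' y) ^ 2 ≤
      ∑ x, ∑ x', ((if x = x' then ∑ y, p x y ^ 2 else 0) +
      (((2 * k : ℕ) : ℝ) - 1) * ∑ y, p x y ^ 2 * p x' y ^ 2 +
      2 * ∑ y, (if (bad G.Adj (2 * k) x x' ∧ G.Adj x y ∧ G.Adj x' y) ∧ R y x x'
        then p x y ^ 2 else 0) +
      2 * ∑ y, (if (bad G.Adj (2 * k) x' x ∧ G.Adj x' y ∧ G.Adj x y) ∧ R y x' x
        then p x' y ^ 2 else 0)) :=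
    sum_le_sum fun x _ => sum_le_sum fun x' _ =>
      pair_bound G.Adj (2 * k) (by omega) p hp hE hrow R (fun y x x' => hR1 y x x') x x'
  refine main.trans ?_
  simp only [sum_add_distrib, ← mul_sum]
  rw [t1]
  have := mul_le_mul_of_nonneg_left t2 (by push_cast; linarith : (0 : ℝ) ≤ ((2 * k : ℕ) : ℝ) - 1)
  push_cast at this ⊢
  nlinarith

/-- **Weighted walks of length four** in graphs of bounded degree without `C_{2k}` -/
theorem walk4 (G : SimpleGraph V) (k : ℕ) (hk : 2 ≤ k)
    (hG : (SimpleGraph.cycleGraph (2 * k)).Free G) (D : ℝ) (hD : 0 < D)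
    (W : Matrix V V ℝ) (h1 : ∀ x y, |W x y| ≤ 1) (hW : ∀ x y, W x y ≠ 0 → G.Adj x y)
    (hdeg : ∀ x, Pool.Agent.N721.SR.ee G {x} univ ≤ D) :
    ∑ x, ∑ x', (∑ y, W x y * W x' y) ^ 2 ≤ 6 * (k : ℝ) * D * ∑ x, ∑ y, W x y ^ 2 := by
  classical
  set p : V → V → ℝ := fun x y => |W x y| / Real.sqrt D with hp
  have hsD : 0 < Real.sqrt D := Real.sqrt_pos.2 hD
  have hsq : Real.sqrt D ^ 2 = D := Real.sq_sqrt hD.le
  have hpsq : ∀ x y, p x y ^ 2 = W x y ^ 2 / D := by
    intro x y
    simp only [hp]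
    rw [div_pow, sq_abs, hsq]
  have hWsq : ∀ x y, W x y ^ 2 ≤ if G.Adj x y then (1 : ℝ) else 0 := by
    intro x y
    by_cases h : G.Adj x y
    · rw [if_pos h, ← sq_abs]
      exact pow_le_one₀ (abs_nonneg _) (h1 x y)
    · have h2 : W x y = 0 := by
        by_contra hne
        exact h (hW x y hne)
      rw [if_neg h, h2]
      norm_num
  have hee : ∀ x, Pool.Agent.N721.SR.ee G {x} univ = ∑ y, if G.Adj x y then (1 : ℝ) else 0 := by
    intro x
    unfold Pool.Agent.N721.SR.ee
    rw [sum_singleton]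
  have hrow : ∀ x, ∑ y, p x y ^ 2 ≤ 1 := by
    intro x
    calc ∑ y, p x y ^ 2 = (∑ y, W x y ^ 2) / D := by
          rw [sum_div]
          exact sum_congr rfl fun y _ => hpsq x y
      _ ≤ 1 := by
          rw [div_le_one hD]
          refine (sum_le_sum fun y _ => hWsq x y).trans ?_
          rw [← hee]
          exact hdeg x
  have hcol : ∀ y, ∑ x, p x y ^ 2 ≤ 1 := by
    intro y
    calc ∑ x, p x y ^ 2 = (∑ x, W x y ^ 2) / D := by
          rw [sum_div]
          exact sum_congr rfl fun x _ => hpsq x y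
      _ ≤ 1 := by
          rw [div_le_one hD]
          refine (sum_le_sum fun x _ => hWsq x y).trans ?_
          have h3 : ∑ x, (if G.Adj x y then (1 : ℝ) else 0) = ∑ x, if G.Adj y x then (1 : ℝ) else 0 :=
            sum_congr rfl fun x _ => if_congr (G.adj_comm _ _) rfl rfl
          rw [h3, ← hee]
          exact hdeg y
  have hb := sum_bound_graph G k hk hG p (fun x y => by simp only [hp]; positivity)
    (fun x y h => hW x y (by
      intro h0
      apply h
      simp only [hp]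
      rw [h0]
      simp)) hrow hcol
  have e1 : ∑ x, ∑ y, p x y ^ 2 = (∑ x, ∑ y, W x y ^ 2) / D := by
    rw [sum_div]
    refine sum_congr rfl fun x _ => ?_
    rw [sum_div]
    exact sum_congr rfl fun y _ => hpsq x y
  have e2 : ∀ x x', (∑ y, W x y * W x' y) ^ 2 ≤ D ^ 2 * (∑ y, p x y * p x' y) ^ 2 := by
    intro x x'
    have h3 : D * ∑ y, p x y * p x' y = ∑ y, |W x y| * |W x' y| := by
      rw [mul_sum]
      refine sum_congr rfl fun y _ => ?_
      simp only [hp]
      rw [div_mul_div_comm, ← sq, hsq]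
      field_simp
    rw [← mul_pow, h3, ← sq_abs]
    refine pow_le_pow_left₀ (abs_nonneg _) ?_ 2
    refine (abs_sum_le_sum_abs _ _).trans (le_of_eq ?_)
    exact sum_congr rfl fun y _ => abs_mul _ _
  calc ∑ x, ∑ x', (∑ y, W x y * W x' y) ^ 2 ≤ ∑ x, ∑ x', D ^ 2 * (∑ y, p x y * p x' y) ^ 2 :=
        sum_le_sum fun x _ => sum_le_sum fun x' _ => e2 x x'
    _ = D ^ 2 * ∑ x, ∑ x', (∑ y, p x y * p x' y) ^ 2 := by
        rw [mul_sum]
        exact sum_congr rfl fun x _ => by rw [mul_sum]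
    _ ≤ D ^ 2 * (6 * (k : ℝ) * ∑ x, ∑ y, p x y ^ 2) := mul_le_mul_of_nonneg_left hb (by positivity)
    _ = _ := by
        rw [e1]
        field_simp

end

end Pool.Agent.HM13.LR
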